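import Pool.Agent.X269.HP.Jac

/-!
# Ramified primes of quadratic extensions
-/

set_option autoImplicit false

namespace Pool.Agent.X269.HQ

variable {O : Type} [CommRing O] [IsDedekindDomain O]

/-- Local generators of the powers of a prime. -/
lemma loc_gen {𝔓 : Ideal O} {k : ℕ} {b c : O} (hb : b ∈ 𝔓 ^ k) (hb' : b ∉ 𝔓 ^ (k + 1))
    (hc : c ∈ 𝔓 ^ k) : ∃ t ∉ 𝔓, ∃ r : O, t * c = b * r := by
  have hdvd : 𝔓 ^ k ∣ Ideal.span {b} := by
    rw [Ideal.dvd_iff_le, Ideal.span_singleton_le_iff_mem]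
    exact hb
  obtain ⟨J, hJ⟩ := hdvd
  have hJ' : ¬ J ≤ 𝔓 := by
    intro h
    apply hb'
    rw [← Ideal.span_singleton_le_iff_mem, hJ, pow_succ]
    exact Ideal.mul_mono_right h
  obtain ⟨t, htJ, ht⟩ := SetLike.not_le_iff_exists.1 hJ'
  refine ⟨t, ht, ?_⟩
  have h3 : t * c ∈ Ideal.span {b} := by
    rw [hJ, mul_comm t c]
    exact Ideal.mul_mem_mul hc htJ
  obtain ⟨r, hr⟩ := Ideal.mem_span_singleton'.1 h3
  exact ⟨r, by rw [← hr, mul_comm]⟩

variable (s : O ≃+* O)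

/-- The automorphism is trivial modulo the prime, which contains `2`. -/
def Ram (𝔓 : Ideal O) : Prop := 𝔓.IsPrime ∧ (2 : O) ∈ 𝔓 ∧ ∀ a, s a - a ∈ 𝔓

variable {s}

/-- Wild ramification. -/
lemma wild_sq (hs : ∀ a, s (s a) = a) {𝔓 : Ideal O} (h𝔓 : Ram s 𝔓) {a : O} (ha : a ∈ 𝔓) :
    s a - a ∈ 𝔓 ^ 2 := by
  obtain ⟨hp, h2, h1⟩ := h𝔓
  by_contra hb
  set b := s a - a with hbdef
  have hb1 : b ∈ 𝔓 ^ 1 := by rw [pow_one]; exact h1 a
  have hb1' : b ∈ 𝔓 := h1 a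
  obtain ⟨t, ht, r, htr⟩ := loc_gen hb1 hb (by rw [pow_one]; exact ha)
  have hsb : s b = -b := by
    rw [hbdef, map_sub, hs]
    ring
  have e1 : t * b = -(b * ((s r - r) + 2 * r)) - (s t - t) * s a := by
    have e2 := congrArg s htr
    rw [map_mul, map_mul, hsb] at e2
    have e3 : b = s a - a := rfl
    linear_combination e2 - htr - t * hbdef + t * e3
  have hsa : s a ∈ 𝔓 := by
    have h3 := 𝔓.add_mem hb1' ha
    rwa [hbdef, sub_add_cancel] at h3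
  have h3 : t * b ∈ 𝔓 ^ 2 := by
    rw [e1, pow_two]
    refine Ideal.sub_mem _ (Ideal.neg_mem_iff _ |>.2 (Ideal.mul_mem_mul hb1' ?_))
      (Ideal.mul_mem_mul (h1 t) hsa)
    exact 𝔓.add_mem (h1 r) (𝔓.mul_mem_right _ h2)
  rcases Ideal.IsPrime.mul_mem_pow 𝔓 h3 with h4 | h4
  · exact ht h4
  · exact hb h4

variable (s) in
/-- The intersection of the ramified primes over `2`. -/
def rr : Ideal O := sInf {𝔓 | Ram s 𝔓}

omit [IsDedekindDomain O] in
lemma rr_le {𝔓 : Ideal O} (h : Ram s 𝔓) : rr s ≤ 𝔓 := sInf_le h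

lemma ram_fin (h2 : (2 : O) ≠ 0) : {𝔓 : Ideal O | Ram s 𝔓}.Finite := by
  have h1 : (Ideal.span {(2 : O)}) ≠ 0 := by
    rw [Ne, Ideal.zero_eq_bot, Ideal.span_singleton_eq_bot]
    exact h2
  refine (Ideal.finite_factors h1 |>.image
    (fun v : IsDedekindDomain.HeightOneSpectrum O => v.asIdeal)).subset ?_
  rintro 𝔓 ⟨hp, h3, -⟩
  refine ⟨⟨𝔓, hp, ?_⟩, ?_, rfl⟩
  · rintro rfl
    exact h2 (Ideal.mem_bot.1 h3)
  · change 𝔓 ∣ Ideal.span {2}
    rw [Ideal.dvd_iff_le, Ideal.span_singleton_le_iff_mem]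
    exact h3

lemma ram_max (h2 : (2 : O) ≠ 0) {𝔓 : Ideal O} (h : Ram s 𝔓) : 𝔓.IsMaximal := by
  refine h.1.isMaximal ?_
  rintro rfl
  exact h2 (Ideal.mem_bot.1 h.2.1)

/-- The ramified primes are the primes which contain the intersection. -/
lemma ram_of_le (h2 : (2 : O) ≠ 0) {𝔔 : Ideal O} (hq : 𝔔.IsPrime) (h : rr s ≤ 𝔔) : Ram s 𝔔 := by
  classical
  have hf := ram_fin (s := s) h2
  have h1 : hf.toFinset.inf id ≤ 𝔔 := by
    refine le_trans ?_ h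
    refine le_sInf fun 𝔓 h𝔓 => ?_
    exact Finset.inf_le (f := id) (hf.mem_toFinset.2 h𝔓)
  obtain ⟨𝔓, h𝔓, h3⟩ := (Ideal.IsPrime.inf_le' hq).1 h1
  rw [hf.mem_toFinset] at h𝔓
  have h4 : 𝔓 = 𝔔 := (ram_max h2 h𝔓).eq_of_le hq.ne_top h3
  rw [← h4]
  exact h𝔓

/-- A local parameter. -/
lemma exists_par (h2 : (2 : O) ≠ 0) {𝔓 : Ideal O} (h : Ram s 𝔓) : ∃ π ∈ rr s, π ∉ 𝔓 ^ 2 := by
  classical
  have hf := ram_fin (s := s) h2
  have hprime := h.1
  have hmax := ram_max h2 h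
  have hne : 𝔓 ≠ ⊥ := by
    rintro rfl
    exact h2 (Ideal.mem_bot.1 h.2.1)
  obtain ⟨π₀, hπ₀, hπ₀'⟩ : ∃ π ∈ 𝔓, π ∉ 𝔓 ^ 2 := by
    have h3 : 𝔓 ^ 2 < 𝔓 := by
      have h4 : 𝔓 ^ 2 < 𝔓 ^ 1 :=
        Ideal.pow_right_strictAnti 𝔓 hne hmax.ne_top (show 1 < 2 by norm_num)
      rwa [pow_one] at h4
    exact SetLike.exists_of_lt h3
  obtain ⟨t, ht, ht'⟩ : ∃ t ∈ (hf.toFinset.erase 𝔓).inf id, t ∉ 𝔓 := by
    by_contra hcon
    push Not at hcon
    have h3 : (hf.toFinset.erase 𝔓).inf id ≤ 𝔓 := hcon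
    obtain ⟨𝔔, h𝔔, h4⟩ := (Ideal.IsPrime.inf_le' hprime).1 h3
    rw [Finset.mem_erase, hf.mem_toFinset] at h𝔔
    exact h𝔔.1 ((ram_max h2 h𝔔.2).eq_of_le hprime.ne_top h4)
  refine ⟨t * π₀, ?_, fun h3 => ?_⟩
  · rw [rr, Submodule.mem_sInf]
    intro 𝔔 h𝔔
    by_cases h3 : 𝔔 = 𝔓
    · subst h3
      exact Ideal.mul_mem_left _ _ hπ₀
    · refine Ideal.mul_mem_right _ _ ?_
      rw [Submodule.mem_finsetInf] at ht
      exact ht 𝔔 (Finset.mem_erase.2 ⟨h3, hf.mem_toFinset.2 h𝔔⟩)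
  · rcases Ideal.IsPrime.mul_mem_pow 𝔓 h3 with h4 | h4
    · exact ht' h4
    · exact hπ₀' h4

omit [IsDedekindDomain O] in
/-- The intersection is stable. -/
lemma rr_stable {a : O} (ha : a ∈ rr s) : s a ∈ rr s := by
  rw [rr, Submodule.mem_sInf] at ha ⊢
  intro 𝔓 h𝔓
  have h1 := (𝔓).add_mem (h𝔓.2.2 a) (ha 𝔓 h𝔓)
  rwa [sub_add_cancel] at h1

/-- A prime over `2` with trivial action of the involution on the residue field is ramified. -/
lemma two_mem_sq (hs1 : ∃ a, s a ≠ a) {𝔓 : Ideal O} (h𝔓 : Ram s 𝔓) (hfin : Finite (O ⧸ 𝔓)) :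
    (2 : O) ∈ 𝔓 ^ 2 := by
  classical
  by_contra h2
  obtain ⟨hp, h2', h1⟩ := h𝔓
  have key : ∀ k, 1 ≤ k → ∀ a, s a - a ∈ 𝔓 ^ k := by
    intro k hk
    induction k, hk using Nat.le_induction with
    | base =>
      intro a
      rw [pow_one]
      exact h1 a
    | succ k hk ih =>
      have hP : ∀ x ∈ 𝔓, s x - x ∈ 𝔓 ^ (k + 1) := by
        intro x hx
        obtain ⟨t, ht, r, htr⟩ := loc_gen (k := 1) (by rwa [pow_one]) h2 (by rwa [pow_one])
        have e : t * (s x - x) = 2 * (s r - r) - (s t - t) * s x := by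
          have h3 := congrArg s htr
          rw [map_mul, map_mul, map_ofNat] at h3
          linear_combination h3 - htr
        have hsx : s x ∈ 𝔓 := by
          have h3 := 𝔓.add_mem (h1 x) hx
          rwa [sub_add_cancel] at h3
        have h4 : t * (s x - x) ∈ 𝔓 ^ (k + 1) := by
          rw [e]
          refine Ideal.sub_mem _ ?_ ?_
          · rw [pow_succ']
            exact Ideal.mul_mem_mul h2' (ih r)
          · rw [pow_succ]
            exact Ideal.mul_mem_mul (ih t) hsx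
        exact (Ideal.IsPrime.mul_mem_pow 𝔓 h4).resolve_left ht
      intro a
      have hinj : Function.Injective (fun c : O ⧸ 𝔓 => c ^ 2) := by
        intro c d hcd
        have h20 : (2 : O ⧸ 𝔓) = 0 := by
          have h3 := Ideal.Quotient.eq_zero_iff_mem.2 h2'
          rwa [map_ofNat] at h3
        have h3 : (c - d) ^ 2 = 0 := by
          have h4 : c ^ 2 = d ^ 2 := hcd
          linear_combination h4 + (d ^ 2 - c * d) * h20
        exact sub_eq_zero.1 (pow_eq_zero_iff two_ne_zero |>.1 h3)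
      obtain ⟨c, hc⟩ := Finite.surjective_of_injective hinj (Ideal.Quotient.mk 𝔓 a)
      obtain ⟨c, rfl⟩ := Ideal.Quotient.mk_surjective c
      have h3 : a - c ^ 2 ∈ 𝔓 := by
        rw [← Ideal.Quotient.eq_zero_iff_mem, map_sub, map_pow, sub_eq_zero]
        exact hc.symm
      have h4 : s a - a = (s c - c) * ((s c - c) + 2 * c) + (s (a - c ^ 2) - (a - c ^ 2)) := by
        rw [map_sub, map_pow]
        ring
      rw [h4]
      refine Ideal.add_mem _ ?_ (hP _ h3)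
      rw [pow_succ]
      exact Ideal.mul_mem_mul (ih c) (𝔓.add_mem (h1 c) (𝔓.mul_mem_right _ h2'))
  obtain ⟨a, ha⟩ := hs1
  apply ha
  have h3 := Ideal.iInf_pow_eq_bot_of_isDomain 𝔓 hp.ne_top
  have h4 : s a - a ∈ ⨅ i : ℕ, 𝔓 ^ i := by
    rw [Submodule.mem_iInf]
    intro i
    rcases Nat.eq_zero_or_pos i with rfl | hi
    · rw [pow_zero, Ideal.one_eq_top]
      trivial
    · exact key i hi a
  rw [h3, Ideal.mem_bot] at h4
  exact sub_eq_zero.1 h4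

end Pool.Agent.X269.HQ
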