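import Pool.Agent.X269.HQ.TwMain
import Pool.Agent.Y223.INV.TwFin

/-!
# Good modules of twisted forms and the conditions at the points of products
-/

set_option autoImplicit false

open scoped Pointwise

namespace Pool.Agent.X269.HQ

open IsLocalRing Pool.Agent.Y223.INV Pool.Agent.W418.LU2 Pool.Agent.TH188.QS
  Pool.Agent.H918R2.Quad Pool.Agent.TH188.ARC Pool.Agent.X269.KP Pool.Agent.X269.HP

section prod

variable {O K : Type} [CommRing O] [Field K] [Algebra O K] {ι : Type} [DecidableEq ι] [Fintype ι]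

/-- The conditions at the points of a product. -/
theorem prod_cond [Nonempty ι]
    (M N : ι → Submodule O K) (σ : K ≃ₐ[O] K) (hσ : ∀ x, σ (σ x) = x)
    (hne' : ∃ x ∈ ∏ i, M i, σ x ≠ x)
    (h1 : ∀ i, (1 : K) ∈ M i)
    (hNM : ∀ i, N i ≤ M i) (hN0 : ∀ i, ∃ x ∈ N i, x ≠ 0)
    (hloc : ∀ W : ValuationSubring K, (∀ o, algebraMap O K o ∈ W) → ∃ h : ι → K,
      (∀ i, h i ∈ M i ∧ h i ≠ 0 ∧ ∀ x ∈ M i, x / h i ∈ W) ∧
      ∀ Q, Q = lo W.toSubring (Subring.closure (DS M h)) → ∃ _ : IsRegularLocalRing Q,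
        ∀ 𝔞 : Ideal Q, 𝔞 = Ideal.span {y : Q | ∃ i, ∃ n ∈ N i, (y : K) = n / h i} →
          (𝔞 ≠ ⊤ → IsRegularLocalRing (Q ⧸ 𝔞)) ∧
          (¬ IsUnit (2 : Q) → IsFixed σ Q → 𝔞 ≠ ⊤ ∧ NondegenerateWild σ Q 𝔞)) :
    ∀ W : ValuationSubring K, (∀ o, algebraMap O K o ∈ W) → ∃ m ∈ ∏ i, M i, m ≠ 0 ∧
      (∀ x ∈ ∏ i, M i, x / m ∈ W) ∧
        Cond σ (PI M N) W (lo W.toSubring (chart O (∏ i, M i) m).toSubring) m := by
  set Mt : Submodule O K := ∏ i, M i with hMt
  have hle := PI_le hNM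
  have h1t : (1 : K) ∈ Mt := by
    have h2 := prod_mem_prod M (fun _ => (1 : K)) Finset.univ fun i _ => h1 i
    rwa [Finset.prod_const_one] at h2
  have hN0' := hN0
  choose n₀ hn₀ hn₀0 using hN0'
  obtain ⟨i₀⟩ := ‹Nonempty ι›
  intro W hOW
  obtain ⟨h, hh, hQ⟩ := hloc W hOW
  set m := ∏ i, h i with hm
  have hm0 : m ≠ 0 := Finset.prod_ne_zero_iff.2 fun i _ => (hh i).2.1
  have hmM : m ∈ Mt := prod_mem_prod M h _ fun i _ => (hh i).1
  have hne : ∀ i, (∏ j ∈ Finset.univ.erase i, h j) ≠ 0 := fun i =>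
    Finset.prod_ne_zero_iff.2 fun j _ => (hh j).2.1
  have hmi : ∀ i, m = h i * ∏ j ∈ Finset.univ.erase i, h j := fun i => by
    rw [hm, ← Finset.mul_prod_erase Finset.univ h (Finset.mem_univ i)]
  have hsplit : ∀ i (x : K), x / h i = (x * ∏ j ∈ Finset.univ.erase i, h j) / m := by
    intro i x
    rw [hmi i, mul_div_mul_right _ _ (hne i)]
  set A : Subalgebra O K := Algebra.adjoin O {y | ∃ i, ∃ x ∈ M i, y = x / h i} with hA
  have hAm : ∀ i, ∀ x ∈ M i, x / h i ∈ A := fun i x hx => Algebra.subset_adjoin ⟨i, x, hx, rfl⟩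
  have hchart : chart O Mt m = A := by
    apply le_antisymm
    · refine Algebra.adjoin_le ?_
      rintro _ ⟨x, hx, rfl⟩
      exact prod_div_mem M h A Finset.univ (fun i _ => hAm i) x hx
    · refine Algebra.adjoin_le ?_
      rintro _ ⟨i, x, hx, rfl⟩
      refine Algebra.subset_adjoin ⟨x * ∏ j ∈ Finset.univ.erase i, h j, ?_, hsplit i x⟩
      change _ ∈ ∏ i, M i
      rw [← Finset.mul_prod_erase Finset.univ M (Finset.mem_univ i)]
      exact Submodule.mul_mem_mul hx (prod_mem_prod M h _ fun j _ => (hh j).1)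
  have hchart' : (chart O Mt m).toSubring = Subring.closure (DS M h) := by
    rw [hchart, hA, Algebra.adjoin_eq_ring_closure]
    rfl
  have hMW : ∀ x ∈ Mt, x / m ∈ W := by
    intro x hx
    have h3 : x / m ∈ A := prod_div_mem M h A Finset.univ (fun i _ => hAm i) x hx
    have h4 : A.toSubring ≤ W.toSubring := by
      rw [hA, Algebra.adjoin_eq_ring_closure, Subring.closure_le]
      rintro _ (⟨o, rfl⟩ | ⟨i, x, hx, rfl⟩)
      · exact hOW o
      · exact (hh i).2.2 x hx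
    exact h4 h3
  have hcW : (chart O Mt m).toSubring ≤ W.toSubring := chart_le_V hOW hMW
  set Q := lo W.toSubring (chart O Mt m).toSubring with hQdef
  obtain ⟨hreg, hI⟩ := hQ Q (by rw [hQdef, hchart'])
  have hQW : Q ≤ W.toSubring := lo_le hcW
  have hAQ : ∀ x ∈ A, x ∈ Q := by
    intro x hx
    refine le_lo _ _ ?_
    rw [hchart]
    exact hx
  have hloQ : IsLocalRing Q := hreg.toIsLocalRing
  set 𝔞 : Ideal Q := Ideal.span {y : Q | ∃ n ∈ PI M N, (y : K) = n / m} with h𝔞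
  have h𝔞' : 𝔞 = Ideal.span {y : Q | ∃ i, ∃ n ∈ N i, (y : K) = n / h i} := by
    apply le_antisymm
    · rw [h𝔞, Ideal.span_le]
      rintro y ⟨n, hn, hy⟩
      have key : ∀ n ∈ PI M N, Im (Ideal.span {y : Q | ∃ i, ∃ n ∈ N i, (y : K) = n / h i})
          (n / m) := by
        refine PI_ind ?_ ?_ ?_
        · rw [zero_div]; exact Im.zero
        · intro x y hx hy
          rw [add_div]; exact hx.add hy
        · intro i x hx y hy
          have h3 : x * y / m = (y / ∏ j ∈ Finset.univ.erase i, h j) * (x / h i) := by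
            rw [hmi i, div_mul_div_comm, mul_comm x y, mul_comm (h i)]
          rw [h3]
          refine Im.mul_left (hAQ _ ?_) ?_
          · exact prod_div_mem M h A _ (fun i _ => hAm i) y hy
          · exact ⟨⟨x / h i, hAQ _ (hAm i x (hNM i hx))⟩, Ideal.subset_span ⟨i, x, hx, rfl⟩, rfl⟩
      have h4 := key n hn
      rw [← hy] at h4
      exact h4.mk y.2
    · rw [Ideal.span_le]
      rintro y ⟨i, n, hn, hy⟩
      refine Ideal.subset_span ⟨n * ∏ j ∈ Finset.univ.erase i, h j, ?_, by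
        rw [hy, hsplit i n]⟩
      exact (le_iSup (fun i => N i * ∏ j ∈ Finset.univ.erase i, M j) i)
        (Submodule.mul_mem_mul hn (prod_mem_prod M h _ fun j _ => (hh j).1))
  obtain ⟨hI1, hI2⟩ := hI 𝔞 h𝔞'
  refine ⟨m, hmM, hm0, hMW, ?_⟩
  refine cond_of hQW (ic_lo hcW) hreg ?_ ?_ hm0 h𝔞 hσ ?_ ?_ ?_ ?_
  · intro n hn
    exact hAQ _ (prod_div_mem M h A Finset.univ (fun i _ => hAm i) n (hle hn))
  · refine ⟨n₀ i₀, (le_iSup (fun i => N i * ∏ j ∈ Finset.univ.erase i, M j) i₀) ?_, hn₀0 i₀⟩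
    rw [← mul_one (n₀ i₀)]
    refine Submodule.mul_mem_mul (hn₀ i₀) ?_
    have h2 := prod_mem_prod M (fun _ => (1 : K)) (Finset.univ.erase i₀) fun i _ => h1 i
    rwa [Finset.prod_const_one] at h2
  · by_contra hcon
    push Not at hcon
    obtain ⟨x, hx, hxσ⟩ := hne'
    apply hxσ
    have h2 : x = (x / m) / (1 / m) := by
      field_simp
    have h3 : ∀ y ∈ Mt, σ (y / m) = y / m := fun y hy =>
      hcon _ (hAQ _ (prod_div_mem M h A Finset.univ (fun i _ => hAm i) y hy))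
    rw [h2, map_div₀, h3 x hx, h3 1 h1t]
  · by_cases h3 : 𝔞 = ⊤
    · exact Or.inl h3
    · exact Or.inr (hI1 h3)
  · intro h3 h4 h5
    exact absurd h5 (hI2 h3 h4).1
  · intro h3 h4 _
    exact (hI2 h3 h4).2

end prod

section tw

variable {O E F K : Type} [CommRing O] [IsDomain O] [Field E] [Algebra O E] [IsFractionRing O E]
  [Field F] [Field K] [Algebra O F] [Algebra E F] [IsScalarTower O E F] [Algebra O K] [Algebra F K]
  [IsScalarTower O F K] {δ : K}

/-- The quotient is a good model of the twisted form: version for modules. -/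
theorem tw_good2 [IsNoetherianRing O] [Algebra E K] [IsScalarTower E F K] [IsScalarTower O E K]
    {ι' : Type} (x : ι' → F) {m : ℕ} (hm : 1 ≤ m) {d : E}
    (hd : δ ^ 2 = algebraMap F K (algebraMap E F d)) (hδ : ∀ f : F, algebraMap F K f ≠ δ)
    (hK : ∀ y : K, ∃ a b : F, y = algebraMap F K a + δ * algebraMap F K b) (h2 : (2 : O) ≠ 0)
    (σ : K ≃ₐ[O] K) (hσF : ∀ f : F, σ (algebraMap F K f) = algebraMap F K f) (hσδ : σ δ = - δ)
    {M I : Submodule O K} (hMfg : M.FG) (hIfg : I.FG) (hsM : ∀ x ∈ M, σ x ∈ M)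
    (hσI : ∀ x ∈ I, σ x ∈ I) (hIM : I ≤ M) (hM0 : ∃ a ∈ M, a ≠ 0)
    {s₀ : O} (hs₀ : s₀ ≠ 0) (hs₀I : ∀ y ∈ M, s₀ • y ∈ I)
    (hTM : Tw (Submodule.span E (Set.range x ^ m)) δ M)
    (hW : ∀ W : ValuationSubring K, (∀ o, algebraMap O K o ∈ W) → ∃ m ∈ M, m ≠ 0 ∧
      (∀ x ∈ M, x / m ∈ W) ∧ Cond σ I W (lo W.toSubring (chart O M m).toSubring) m) :
    Pool.Agent.W418.GoodModule O x := by
  classical
  set P := Submodule.span E (Set.range x ^ m) with hP
  have hOK : Function.Injective (algebraMap O K) := by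
    rw [IsScalarTower.algebraMap_eq O E K]
    exact (algebraMap E K).injective.comp (IsFractionRing.injective O E)
  have h2K : (2 : K) ≠ 0 := by
    intro h
    apply h2
    apply hOK
    rw [map_ofNat, h, map_zero]
  have hδ0 : δ ≠ 0 := fun h => hδ 0 (by rw [map_zero, h])
  have hσ : ∀ y, σ (σ y) = y := by
    intro y
    obtain ⟨a, b, rfl⟩ := hK y
    simp only [map_add, map_mul, hσF, hσδ, map_neg, neg_neg]
  have hF : ∀ y, σ y = y ↔ ∃ f : F, algebraMap F K f = y := by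
    intro y
    constructor
    · intro h
      obtain ⟨a, b, rfl⟩ := hK y
      simp only [map_add, map_mul, hσF, hσδ] at h
      have h3 : (2 : K) * (δ * algebraMap F K b) = 0 := by linear_combination -h
      refine ⟨a, ?_⟩
      rw [(mul_eq_zero.1 h3).resolve_left h2K, add_zero]
    · rintro ⟨f, rfl⟩
      exact hσF f
  have hTI : Tw P δ I := by
    refine ⟨fun y hy => hTM.le y (hIM hy), fun n hn => ?_⟩
    obtain ⟨s, hs, h3, h4⟩ := hTM.ge n hn
    refine ⟨s₀ * s, mul_ne_zero hs₀ hs, ?_, ?_⟩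
    · rw [mul_smul]
      exact hs₀I _ h3
    · rw [mul_smul]
      exact hs₀I _ h4
  have hTMI := hTM.mul hd hTI
  have hTS := hTMI.mul hd (hTMI.sm hσF hσδ)
  -- a nonzero element
  obtain ⟨u₀, hu₀, hu₀0⟩ := hM0
  obtain ⟨n, hn, hn0⟩ : ∃ n ∈ P, n ≠ 0 := by
    obtain ⟨a, ha, b, hb, hab⟩ := hTM.le u₀ hu₀
    by_cases ha0 : a = 0
    · refine ⟨b, hb, ?_⟩
      rintro rfl
      apply hu₀0
      rw [hab, ha0, map_zero, mul_zero, add_zero]
    · exact ⟨a, ha, ha0⟩
  have hI0 : ∃ a ∈ I, a ≠ 0 := by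
    refine ⟨_, hs₀I u₀ hu₀, ?_⟩
    rw [Algebra.smul_def]
    exact mul_ne_zero (fun h4 => hs₀ (hOK (by rw [h4, map_zero]))) hu₀0
  -- the antisymmetric element
  obtain ⟨s, hs, hu, hv⟩ := hTMI.ge (n * n) (Submodule.mul_mem_mul hn hn)
  have hn2 : algebraMap F K (n * n) ≠ 0 := fun h => mul_ne_zero hn0 hn0 ((map_eq_zero _).1 h)
  have hs' : algebraMap O K s ≠ 0 := fun h => hs (hOK (by rw [h, map_zero]))
  set u := s • algebraMap F K (n * n) with hudef
  set v := s • (δ * algebraMap F K (n * n)) with hvdef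
  have hwuv : wd σ v u = - (2 * (algebraMap O K s ^ 2 * (δ * algebraMap F K (n * n) ^ 2))) := by
    rw [wd, hudef, hvdef]
    simp only [Algebra.smul_def, map_mul, σ.commutes, hσF, hσδ]
    ring
  have hwuv0 : wd σ v u ≠ 0 := by
    rw [hwuv]
    exact neg_ne_zero.2 (mul_ne_zero h2K (mul_ne_zero (pow_ne_zero 2 hs')
      (mul_ne_zero hδ0 (pow_ne_zero 2 hn2))))
  obtain ⟨hfg, h0, hregq⟩ := inv_quot (F := F) σ hσ hF hMfg hIfg hsM hσI hIM hI0 hW
    v hv u hu hwuv0
  obtain ⟨ω, hω, hωeq⟩ := hTMI.wd_le hσF hσδ (wd_mem (σ := σ) hv hu)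
  have hω0 : ω ≠ 0 := by
    rintro rfl
    apply hwuv0
    rw [hωeq, map_zero, mul_zero]
  have hPpow : (P * P) * (P * P) * ((P * P) * (P * P)) = Submodule.span E (Set.range x ^ (8 * m)) := by
    rw [← Submodule.span_pow, hP, ← Submodule.span_pow]
    ring
  refine goodModule_of (E := E) (D := 8 * m) (by omega) hfg h0 hω0 ?_ ?_ hregq
  · intro f hf
    rw [← hPpow]
    refine Submodule.mul_induction_on hf ?_ ?_
    · intro a ha b hb
      have h3 := hTS.vf_le hδ ha
      obtain ⟨c, hc, h4⟩ := hTMI.wd_le hσF hσδ (mem_WF.1 hb)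
      rw [hωeq] at h4
      have h5 : ω * b = c := by
        apply (algebraMap F K).injective
        rw [map_mul]
        apply mul_left_cancel₀ hδ0
        rw [← h4]
        ring
      have h6 : ω * (a * b) = a * (ω * b) := by ring
      rw [h6, h5]
      exact Submodule.mul_mem_mul h3 hc
    · intro a b ha hb
      rw [mul_add]
      exact Submodule.add_mem _ ha hb
  · intro y hy
    rw [← hPpow] at hy
    refine Submodule.mul_induction_on hy ?_ ?_
    · intro a ha b hb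
      obtain ⟨s, hs, h3⟩ := hTS.vf_ge ha
      obtain ⟨t, ht, h4⟩ := hTMI.wd_ge hσF hσδ h2 hb
      refine ⟨s * t, mul_ne_zero hs ht, ?_⟩
      have h5 : t • (b / ω) ∈ WF F σ (M * I) (wd σ v u) := by
        rw [mem_WF, hωeq]
        have hω' : algebraMap F K ω ≠ 0 := fun h => hω0 ((map_eq_zero _).1 h)
        have h6 : algebraMap F K (t • (b / ω)) * (δ * algebraMap F K ω) =
            t • (δ * algebraMap F K b) := by
          rw [Algebra.smul_def, Algebra.smul_def, map_mul, map_div₀,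
            ← IsScalarTower.algebraMap_apply O F K]
          field_simp
        rw [h6]
        exact h4
      have h6 : (s * t) • (a * b / ω) = (s • a) * (t • (b / ω)) := by
        rw [smul_mul_smul_comm, mul_div_assoc]
      rw [h6]
      exact Submodule.mul_mem_mul h3 h5
    · rintro a b ⟨s, hs, h3⟩ ⟨t, ht, h4⟩
      refine ⟨s * t, mul_ne_zero hs ht, ?_⟩
      have h5 : (s * t) • ((a + b) / ω) = t • (s • (a / ω)) + s • (t • (b / ω)) := by
        rw [add_div, smul_add, smul_smul, smul_smul, mul_comm t s]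
      rw [h5]
      exact Submodule.add_mem _ (Submodule.smul_mem _ _ h3) (Submodule.smul_mem _ _ h4)

end tw

end Pool.Agent.X269.HQ
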