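import Pool.Agent.X269.HQ.GoodMain

/-!
# Good modules of products of twists of double covers over number fields
-/

set_option autoImplicit false

namespace Pool.Agent.X269.HQ

open Polynomial NumberField Pool.Agent.X269.HP

theorem good_of_data {E L : Type} [Field E] [NumberField E] [Field L] [NumberField L]
    [Algebra E L] (s : L ≃ₐ[E] L) (hss : ∀ a, s (s a) = a) (hs1 : ∃ a, s a ≠ a)
    (hsE : ∀ a, s a = a → ∃ e : E, algebraMap E L e = a)
    (hs2 : ∀ 𝔓 : Ideal (𝓞 L), 𝔓.IsPrime → 2 ∈ 𝔓 →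
      (∀ a, RingOfIntegers.mapRingEquiv (s : L ≃+* L) a - a ∈ 𝔓) →
      ∃ a ∈ 𝔓, RingOfIntegers.mapRingEquiv (s : L ≃+* L) a - a ∉ 𝔓 ^ 3)
    {n : ℕ} (C : Fin (n + 1) → Hyp (𝓞 L)) (hC : ∀ i, (C i).IsDeg)
    (hR : ∀ i, ∀ 𝔪 : Ideal (𝓞 L)[X], 𝔪.IsMaximal → 2 ∉ 𝔪 →
      (C i).branch ∉ 𝔪 ^ 2 ∧ (C i).rev.branch ∉ 𝔪 ^ 2)
    (d : Fin (n + 1) → 𝓞 L) (hd : ∀ i, (C i).IsDisc (d i) ∧ (C i).rev.IsDisc (d i))
    (hco : ∀ i j, i ≠ j → ∀ 𝔭 : Ideal (𝓞 L), 𝔭.IsPrime → d i ∈ 𝔭 → d j ∈ 𝔭 → 2 ∈ 𝔭)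
    (T : Set (Fin (n + 1))) (hord : ∀ i, i ∉ T → IsOrdTwo (C i) ∧ IsOrdTwo (C i).rev)
    (hsh : ∀ i, i ∉ T →
      (C i).h.map (RingOfIntegers.mapRingEquiv (s : L ≃+* L) : 𝓞 L →+* 𝓞 L) = (C i).h)
    (hsmo : ∀ i ∈ T, (C i).IsSmoothTwo ∧ (C i).rev.IsSmoothTwo)
    {F K : Type} [Field F] [Field K] [Algebra E F] [Algebra L K] [Algebra E K] [Algebra F K]
    [IsScalarTower E F K] [IsScalarTower E L K] [Algebra (𝓞 E) F] [IsScalarTower (𝓞 E) E F]
    (x y : Fin (n + 1) → K)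
    (hx : AlgebraicIndependent L x)
    (hE : ∀ i, y i ^ 2 + aeval (x i) ((C i).h.map (algebraMap (𝓞 L) L)) * y i =
      aeval (x i) ((C i).f.map (algebraMap (𝓞 L) L)))
    (hK : IntermediateField.adjoin L (Set.range x ∪ Set.range y) = ⊤)
    (σ : K ≃+* K) (hσL : ∀ a : L, σ (algebraMap L K a) = algebraMap L K (s a))
    (hσx : ∀ i, i ∉ T → σ (x i) = x i)
    (hσy : ∀ i, i ∉ T → σ (y i) = -y i - aeval (x i) ((C i).h.map (algebraMap (𝓞 L) L)))
    (hσt : ∀ i ∈ T, (σ (x i) = x i ∨ σ (x i) = -x i) ∧ (σ (y i) = y i ∨ σ (y i) = -y i))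
    (hσF : ∀ z, σ z = z ↔ ∃ f : F, algebraMap F K f = z)
    {N : ℕ} (z : Fin (N + 1) → F)
    (hz : Submodule.span L (Set.range fun j => algebraMap F K (z j)) =
      ∏ i, forms L (C i).r (x i) (y i)) : Pool.Agent.W418.GoodModule (𝓞 E) z := by
  classical
  let _ : Algebra (𝓞 L) K := ((algebraMap L K).comp (algebraMap (𝓞 L) L)).toAlgebra
  have h1 : IsScalarTower (𝓞 L) L K := IsScalarTower.of_algebraMap_eq fun _ => rfl
  let _ : Algebra (𝓞 E) K := ((algebraMap E K).comp (algebraMap (𝓞 E) E)).toAlgebra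
  have h2 : IsScalarTower (𝓞 E) E K := IsScalarTower.of_algebraMap_eq fun _ => rfl
  have h3 : IsScalarTower (𝓞 E) F K := IsScalarTower.of_algebraMap_eq fun a => by
    rw [IsScalarTower.algebraMap_apply (𝓞 E) E K, IsScalarTower.algebraMap_apply E F K,
      IsScalarTower.algebraMap_apply (𝓞 E) E F]
  have h4 : IsScalarTower (𝓞 E) (𝓞 L) K := IsScalarTower.of_algebraMap_eq fun a => by
    rw [IsScalarTower.algebraMap_apply (𝓞 E) E K, IsScalarTower.algebraMap_apply E L K,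
      IsScalarTower.algebraMap_apply (𝓞 L) L K]
    rfl
  have h5 : Module.Finite (𝓞 E) (𝓞 L) := inferInstance
  set sO := RingOfIntegers.mapRingEquiv (s : L ≃+* L) with hsO
  have hsO' : ∀ a : 𝓞 L, ((sO a : 𝓞 L) : L) = s (a : L) := fun a => rfl
  have hss' : ∀ a, sO (sO a) = a := by
    intro a
    apply RingOfIntegers.ext
    rw [hsO', hsO', hss]
  have hs1' : ∃ a, sO a ≠ a := by
    by_contra hcon
    push Not at hcon
    obtain ⟨a, ha⟩ := hs1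
    apply ha
    obtain ⟨c, e, he, rfl⟩ := IsFractionRing.div_surjective (A := 𝓞 L) a
    have h6 : ∀ c : 𝓞 L, s (algebraMap (𝓞 L) L c) = algebraMap (𝓞 L) L c := fun c =>
      congrArg (algebraMap (𝓞 L) L) (hcon c)
    rw [map_div₀, h6, h6]
  have h20 : (2 : 𝓞 L) ≠ 0 := two_ne_zero
  have hRam : RamOK sO := by
    intro 𝔓 h𝔓
    have hne : 𝔓 ≠ ⊥ := by
      rintro rfl
      exact h20 (Ideal.mem_bot.1 h𝔓.2.1)
    exact ⟨two_mem_sq hs1' h𝔓 (Ideal.finiteQuotientOfFreeOfNeBot 𝔓 hne),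
      hs2 𝔓 h𝔓.1 h𝔓.2.1 h𝔓.2.2⟩
  have hJ : IsJacobsonRing (𝓞 L) := jacO L
  have hR' : ∀ i, (C i).IsReg ∧ (C i).rev.IsReg := fun i =>
    ⟨isReg_of_max fun 𝔪 h𝔪 h => (hR i 𝔪 h𝔪 h).1, isReg_of_max fun 𝔪 h𝔪 h => (hR i 𝔪 h𝔪 h).2⟩
  have hmap : ∀ i (p : (𝓞 L)[X]), aeval (x i) (p.map (algebraMap (𝓞 L) L)) = aeval (x i) p :=
    fun i p => aeval_map_algebraMap L (x i) p
  have hE' : ∀ i, HP.Pt (C i) (x i) (y i) := by
    intro i
    have h := hE i
    rw [hmap, hmap] at h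
    exact h
  have hσy' : ∀ i, i ∉ T → σ (y i) = -y i - aeval (x i) (C i).h := by
    intro i hi
    have h := hσy i hi
    rw [hmap] at h
    exact h
  have hσO : ∀ o, σ (algebraMap (𝓞 L) K o) = algebraMap (𝓞 L) K (sO o) := fun o => hσL o
  have hσh : ∀ i, i ∉ T → σ (aeval (x i) (C i).h) = aeval (x i) (C i).h := by
    intro i hi
    rw [semi_aeval hσO, hσx i hi, hsh i hi]
  have hpm : ∀ a : K, (σ a = a ∨ σ a = -a) → σ (σ a) = a := by
    rintro a (h | h)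
    · rw [h, h]
    · rw [h, map_neg, h, neg_neg]
  have hσσ : ∀ x, σ (σ x) = x := by
    intro z
    have hz : z ∈ IntermediateField.adjoin L (Set.range x ∪ Set.range y) := by rw [hK]; trivial
    induction hz using IntermediateField.adjoin_induction with
    | mem z hz =>
      rcases hz with ⟨i, rfl⟩ | ⟨i, rfl⟩
      · by_cases hi : i ∈ T
        · exact hpm _ (hσt i hi).1
        · rw [hσx i hi, hσx i hi]
      · by_cases hi : i ∈ T
        · exact hpm _ (hσt i hi).2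
        · rw [hσy' i hi, map_sub, map_neg, hσy' i hi, hσh i hi]
          ring
    | algebraMap x => rw [hσL, hσL, hss]
    | add x z _ _ hx hz => rw [map_add, map_add, hx, hz]
    | inv x _ hx => rw [map_inv₀, map_inv₀, hx]
    | mul x z _ _ hx hz => rw [map_mul, map_mul, hx, hz]
  -- the quadratic extension
  obtain ⟨a, ha⟩ := hs1
  set δ := a - s a with hδ
  have hδ0 : δ ≠ 0 := fun h => ha (sub_eq_zero.1 h).symm
  have hsδ : s δ = -δ := by
    rw [hδ, map_sub, hss, neg_sub]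
  obtain ⟨D, hD⟩ := hsE (δ ^ 2) (by rw [map_pow, hsδ, neg_sq])
  have h2L : (2 : L) ≠ 0 := two_ne_zero
  have hLE : ∀ l : L, ∃ a b : E, l = algebraMap E L a + δ * algebraMap E L b := by
    intro l
    obtain ⟨a', ha'⟩ := hsE ((l + s l) / 2) (by rw [map_div₀, map_add, hss, map_ofNat, add_comm])
    obtain ⟨b, hb⟩ := hsE ((l - s l) / (2 * δ)) (by
      rw [map_div₀, map_sub, hss, map_mul, map_ofNat, hsδ, mul_neg, div_neg, ← neg_div, neg_sub])
    refine ⟨a', b, ?_⟩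
    rw [ha', hb]
    field_simp
    ring
  exact hyp_goodModule (R := 𝓞 E) (O := 𝓞 L) (E := E) (L := L) (F := F) (K := K) sO hss' hs1' hRam C
    hC hR' d hd hco T hord hsh hsmo x y hx hE' σ hσO hσx hσy' hσt hσσ hσF (δ := δ)
    (by rw [hσL, hsδ, map_neg]) hδ0 hD.symm hLE z hz

end Pool.Agent.X269.HQ
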