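import Pool.Agent.X269.HQ.Good

/-!
# Good modules of products of twists of double covers
-/

set_option autoImplicit false

open scoped Pointwise

namespace Pool.Agent.X269.HQ

open IsLocalRing Pool.Agent.Y223.INV Pool.Agent.W418.LU2 Pool.Agent.TH188.QS
  Pool.Agent.H918R2.Quad Pool.Agent.X269.KP Pool.Agent.X269.HP Polynomial

/-- The forms of degree one of the curve with the generic point `(x, y)`. -/
def forms (L : Type) {K : Type} [Field L] [Field K] [Algebra L K] (r : ℕ) (x y : K) :
    Submodule L K :=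
  Submodule.span L ({z | ∃ k, k ≤ r ∧ z = x ^ k} ∪ {y})

section

variable {R O K : Type} [CommRing R] [CommRing O] [Field K] [Algebra R O] [Algebra R K] [Algebra O K]
  [IsScalarTower R O K] {ι : Type} [DecidableEq ι]

/-- Products of modules over a subring. -/
lemma prod_restrict (M : ι → Submodule O K) (t : Finset ι) (ht : t.Nonempty) :
    ∀ y ∈ ∏ i ∈ t, M i, y ∈ ∏ i ∈ t, (M i).restrictScalars R := by
  induction ht using Finset.Nonempty.cons_induction with
  | singleton a =>
    intro y hy
    rw [Finset.prod_singleton] at hy ⊢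
    exact hy
  | cons a t ha ht ih =>
    intro y hy
    rw [Finset.prod_cons] at hy ⊢
    refine Submodule.mul_induction_on hy ?_ ?_
    · intro u hu v hv
      exact Submodule.mul_mem_mul hu (ih v hv)
    · intro u v hu hv
      exact Submodule.add_mem _ hu hv

lemma prod_restrict' (M : ι → Submodule O K) (t : Finset ι) :
    ∀ y ∈ ∏ i ∈ t, (M i).restrictScalars R, y ∈ ∏ i ∈ t, M i := by
  classical
  induction t using Finset.induction_on with
  | empty =>
    intro y hy
    rw [Finset.prod_empty] at hy ⊢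
    obtain ⟨r, rfl⟩ := Submodule.mem_one.1 hy
    exact Submodule.mem_one.2 ⟨algebraMap R O r, (IsScalarTower.algebraMap_apply R O K r).symm⟩
  | insert a t ha ih =>
    intro y hy
    rw [Finset.prod_insert ha] at hy ⊢
    refine Submodule.mul_induction_on hy ?_ ?_
    · intro u hu v hv
      exact Submodule.mul_mem_mul hu (ih v hv)
    · intro u v hu hv
      exact Submodule.add_mem _ hu hv

variable {L : Type} [Field L] [Algebra O L] [Algebra L K] [IsScalarTower O L K]

lemma prod_le_L (M : ι → Submodule O K) (V : ι → Submodule L K) (hMV : ∀ i, ∀ y ∈ M i, y ∈ V i)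
    (t : Finset ι) : ∀ y ∈ ∏ i ∈ t, M i, y ∈ ∏ i ∈ t, V i := by
  classical
  induction t using Finset.induction_on with
  | empty =>
    intro y hy
    rw [Finset.prod_empty] at hy ⊢
    obtain ⟨r, rfl⟩ := Submodule.mem_one.1 hy
    exact Submodule.mem_one.2 ⟨algebraMap O L r, (IsScalarTower.algebraMap_apply O L K r).symm⟩
  | insert a t ha ih =>
    intro y hy
    rw [Finset.prod_insert ha] at hy ⊢
    refine Submodule.mul_induction_on hy ?_ ?_
    · intro u hu v hv
      exact Submodule.mul_mem_mul (hMV a u hu) (ih v hv)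
    · intro u v hu hv
      exact Submodule.add_mem _ hu hv

/-- Clearing denominators. -/
lemma prod_ge_L [IsDomain R] (hRK : Function.Injective (algebraMap R K))
    (hL : ∀ l : L, ∃ r : R, r ≠ 0 ∧ ∃ o : O, algebraMap R K r * algebraMap L K l = algebraMap O K o)
    (M : ι → Submodule O K)
    (V : ι → Submodule L K) (hMV : ∀ i, ∀ y ∈ V i, ∃ r : R, r ≠ 0 ∧ algebraMap R K r * y ∈ M i)
    (t : Finset ι) :
    ∀ y ∈ ∏ i ∈ t, V i, ∃ r : R, r ≠ 0 ∧ algebraMap R K r * y ∈ ∏ i ∈ t, M i := by
  classical
  induction t using Finset.induction_on with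
  | empty =>
    intro y hy
    rw [Finset.prod_empty] at hy ⊢
    obtain ⟨l, rfl⟩ := Submodule.mem_one.1 hy
    obtain ⟨r, hr, o, ho⟩ := hL l
    exact ⟨r, hr, Submodule.mem_one.2 ⟨o, ho.symm⟩⟩
  | insert a t ha ih =>
    intro y hy
    rw [Finset.prod_insert ha] at hy ⊢
    have hsm : ∀ (r : R) (z : K), z ∈ M a * ∏ i ∈ t, M i →
        algebraMap R K r * z ∈ M a * ∏ i ∈ t, M i := by
      intro r z hz
      rw [IsScalarTower.algebraMap_apply R O K, ← Algebra.smul_def]
      exact Submodule.smul_mem _ _ hz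
    refine Submodule.mul_induction_on hy ?_ ?_
    · intro u hu v hv
      obtain ⟨r, hr, h1⟩ := hMV a u hu
      obtain ⟨q, hq, h2⟩ := ih v hv
      refine ⟨r * q, mul_ne_zero hr hq, ?_⟩
      have h3 : algebraMap R K (r * q) * (u * v) = (algebraMap R K r * u) *
          (algebraMap R K q * v) := by
        rw [map_mul]
        ring
      rw [h3]
      exact Submodule.mul_mem_mul h1 h2
    · rintro u v ⟨r, hr, h1⟩ ⟨q, hq, h2⟩
      refine ⟨r * q, mul_ne_zero hr hq, ?_⟩
      have h3 : algebraMap R K (r * q) * (u + v) = algebraMap R K q * (algebraMap R K r * u) +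
          algebraMap R K r * (algebraMap R K q * v) := by
        rw [map_mul]
        ring
      rw [h3]
      exact Submodule.add_mem _ (hsm q _ h1) (hsm r _ h2)

variable {C : ι → Hyp O} {x y : ι → K} {i : ι}

omit [DecidableEq ι] in
lemma HM_le_forms : ∀ z ∈ HM C x y i, z ∈ forms L (C i).r (x i) (y i) := by
  refine HM_ind (Submodule.zero_mem _) (fun a b => Submodule.add_mem _) ?_ ?_ ?_
  · intro r a ha
    rw [IsScalarTower.algebraMap_apply O L K, ← Algebra.smul_def]
    exact Submodule.smul_mem _ _ ha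
  · intro k hk
    exact Submodule.subset_span (Or.inl ⟨k, hk, rfl⟩)
  · exact Submodule.subset_span (Or.inr rfl)

omit [DecidableEq ι] [Algebra O L] [IsScalarTower O L K] in
lemma forms_ge [IsDomain R]
    (hL : ∀ l : L, ∃ r : R, r ≠ 0 ∧ ∃ o : O, algebraMap R K r * algebraMap L K l = algebraMap O K o) :
    ∀ z ∈ forms L (C i).r (x i) (y i), ∃ r : R, r ≠ 0 ∧ algebraMap R K r * z ∈ HM C x y i := by
  have hsm : ∀ (r : R) (z : K), z ∈ HM C x y i → algebraMap R K r * z ∈ HM C x y i := by
    intro r z hz
    rw [IsScalarTower.algebraMap_apply R O K, ← Algebra.smul_def]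
    exact Submodule.smul_mem _ _ hz
  intro z hz
  induction hz using Submodule.span_induction with
  | mem z hz =>
    refine ⟨1, one_ne_zero, ?_⟩
    rw [map_one, one_mul]
    rcases hz with ⟨k, hk, rfl⟩ | rfl
    · exact HM_pow hk
    · exact HM_y
  | zero => exact ⟨1, one_ne_zero, by rw [mul_zero]; exact Submodule.zero_mem _⟩
  | add u v _ _ hu hv =>
    obtain ⟨r, hr, h1⟩ := hu
    obtain ⟨q, hq, h2⟩ := hv
    refine ⟨r * q, mul_ne_zero hr hq, ?_⟩
    have h3 : algebraMap R K (r * q) * (u + v) = algebraMap R K q * (algebraMap R K r * u) +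
        algebraMap R K r * (algebraMap R K q * v) := by
      rw [map_mul]
      ring
    rw [h3]
    exact Submodule.add_mem _ (hsm q _ h1) (hsm r _ h2)
  | smul l u _ hu =>
    obtain ⟨r, hr, h1⟩ := hu
    obtain ⟨q, hq, o, ho⟩ := hL l
    refine ⟨q * r, mul_ne_zero hq hr, ?_⟩
    have h3 : algebraMap R K (q * r) * (l • u) = algebraMap O K o * (algebraMap R K r * u) := by
      rw [Algebra.smul_def, map_mul, ← ho]
      ring
    rw [h3]
    exact HM_smul h1 o

end

section

variable {O K : Type} [CommRing O] [Field K] [Algebra O K] {ι : Type} {C : ι → Hyp O} {x y : ι → K}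
  {i : ι} {t : Set ι} {s : O ≃+* O}

lemma rr_mul_HM {a : O} (ha : a ∈ rr s) : ∀ z ∈ HM C x y i, algebraMap O K a * z ∈ SC s C x y t i := by
  classical
  refine HM_ind ?_ ?_ ?_ ?_ ?_
  · rw [mul_zero]; exact Submodule.zero_mem _
  · intro u v hu hv
    rw [mul_add]; exact Submodule.add_mem _ hu hv
  · intro r u hu
    rw [mul_left_comm, ← Algebra.smul_def]
    exact Submodule.smul_mem _ _ hu
  · intro k hk
    exact SC_pow ha hk
  · rw [SC]
    split_ifs
    · exact Submodule.subset_span (Or.inr ⟨a, ha, rfl⟩)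
    · rw [← Algebra.smul_def]
      exact Submodule.smul_mem _ _ (Submodule.subset_span (by simp))

end

end Pool.Agent.X269.HQ
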