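import Pool.Agent.X269.HQ.GoodHyp

/-!
# Good modules of products of twists of double covers: main theorem
-/

set_option autoImplicit false

open scoped Pointwise

namespace Pool.Agent.X269.HQ

open IsLocalRing Pool.Agent.Y223.INV Pool.Agent.W418.LU2 Pool.Agent.TH188.QS
  Pool.Agent.H918R2.Quad Pool.Agent.X269.KP Pool.Agent.X269.HP Polynomial

theorem hyp_goodModule {R O E L F K : Type} [CommRing R] [IsDomain R] [IsNoetherianRing R]
    [CommRing O] [IsDedekindDomain O] [Algebra R O] [Module.Finite R O] [Field E] [Algebra R E]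
    [IsFractionRing R E] [Field L] [CharZero L] [Algebra O L] [IsFractionRing O L]
    [Field F] [Algebra E F] [Algebra R F] [IsScalarTower R E F]
    [Field K] [Algebra F K] [Algebra L K] [Algebra E K] [IsScalarTower E F K] [Algebra E L]
    [IsScalarTower E L K] [Algebra R K] [IsScalarTower R E K] [IsScalarTower R F K]
    [Algebra O K] [IsScalarTower O L K] [IsScalarTower R O K]
    (s : O ≃+* O) (hss : ∀ a, s (s a) = a) (hs1 : ∃ a, s a ≠ a) (hsR : RamOK s)
    {ι : Type} [Fintype ι] [DecidableEq ι] [Nonempty ι] (C : ι → Hyp O) (hC : ∀ i, (C i).IsDeg)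
    (hR : ∀ i, (C i).IsReg ∧ (C i).rev.IsReg) (d : ι → O)
    (hd : ∀ i, (C i).IsDisc (d i) ∧ (C i).rev.IsDisc (d i))
    (hco : ∀ i j, i ≠ j → ∀ 𝔭 : Ideal O, 𝔭.IsPrime → d i ∈ 𝔭 → d j ∈ 𝔭 → (2 : O) ∈ 𝔭)
    (t : Set ι) (hord : ∀ i, i ∉ t → IsOrdTwo (C i) ∧ IsOrdTwo (C i).rev)
    (hsh : ∀ i, i ∉ t → (C i).h.map (s : O →+* O) = (C i).h)
    (hsmo : ∀ i ∈ t, (C i).IsSmoothTwo ∧ (C i).rev.IsSmoothTwo)
    (x y : ι → K) (hx : AlgebraicIndependent L x) (hE : ∀ i, HP.Pt (C i) (x i) (y i))
    (σ : K ≃+* K) (hσO : ∀ o, σ (algebraMap O K o) = algebraMap O K (s o))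
    (hσx : ∀ i, i ∉ t → σ (x i) = x i)
    (hσy : ∀ i, i ∉ t → σ (y i) = -y i - aeval (x i) (C i).h)
    (hσt : ∀ i ∈ t, (σ (x i) = x i ∨ σ (x i) = -x i) ∧ (σ (y i) = y i ∨ σ (y i) = -y i))
    (hσσ : ∀ y, σ (σ y) = y) (hσF : ∀ y, σ y = y ↔ ∃ f : F, algebraMap F K f = y)
    {δ : L} (hδ : σ (algebraMap L K δ) = -algebraMap L K δ) (hδ0 : δ ≠ 0) {D : E}
    (hD : δ ^ 2 = algebraMap E L D)
    (hLE : ∀ l : L, ∃ a b : E, l = algebraMap E L a + δ * algebraMap E L b)
    {ι' : Type} (z : ι' → F)
    (hz : Submodule.span L (Set.range fun j => algebraMap F K (z j)) =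
      ∏ i, forms L (C i).r (x i) (y i)) :
    Pool.Agent.W418.GoodModule R z := by
  classical
  have hLKinj : Function.Injective (algebraMap L K) := (algebraMap L K).injective
  have hFKinj : Function.Injective (algebraMap F K) := (algebraMap F K).injective
  have hKC : CharZero K := charZero_of_injective_algebraMap hLKinj
  have hOK : Function.Injective (algebraMap O K) := by
    rw [IsScalarTower.algebraMap_eq O L K]
    exact hLKinj.comp (IsFractionRing.injective O L)
  have hRK : Function.Injective (algebraMap R K) := by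
    rw [IsScalarTower.algebraMap_eq R E K]
    exact (algebraMap E K).injective.comp (IsFractionRing.injective R E)
  have h2K : (2 : K) ≠ 0 := by norm_num
  have h2R : (2 : R) ≠ 0 := by
    intro h
    apply h2K
    rw [← map_ofNat (algebraMap R K) 2, h, map_zero]
  have h2O : (2 : O) ≠ 0 := by
    intro h
    apply h2K
    rw [← map_ofNat (algebraMap O K) 2, h, map_zero]
  -- the involution over `R`
  have hσF' : ∀ f : F, σ (algebraMap F K f) = algebraMap F K f := fun f => (hσF _).2 ⟨f, rfl⟩
  let τ : K ≃ₐ[R] K := AlgEquiv.ofRingEquiv (f := σ) fun r => by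
    rw [IsScalarTower.algebraMap_apply R F K]
    exact hσF' _
  have hτ : ∀ w, τ w = σ w := fun w => rfl
  set δK := algebraMap L K δ with hδK
  have hδK0 : δK ≠ 0 := fun h => hδ0 (hLKinj (by rw [map_zero]; exact h))
  have hDK : δK ^ 2 = algebraMap F K (algebraMap E F D) := by
    rw [hδK, ← map_pow, hD, ← IsScalarTower.algebraMap_apply E L K,
      ← IsScalarTower.algebraMap_apply E F K]
  have hδF : ∀ f : F, algebraMap F K f ≠ δK := by
    intro f hf
    have h1 := hσF' f
    rw [hf, hδ] at h1
    have h3 : (2 : K) * δK = 0 := by linear_combination -h1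
    exact mul_ne_zero h2K hδK0 h3
  have hKF : ∀ w : K, ∃ a b : F, w = algebraMap F K a + δK * algebraMap F K b := by
    intro w
    obtain ⟨a, ha⟩ := (hσF ((w + σ w) / 2)).1 (by
      rw [map_div₀, map_add, hσσ, map_ofNat, add_comm])
    obtain ⟨b, hb⟩ := (hσF ((w - σ w) / (2 * δK))).1 (by
      rw [map_div₀, map_sub, hσσ, map_mul, map_ofNat, hδ, mul_neg, div_neg, ← neg_div, neg_sub])
    refine ⟨a, b, ?_⟩
    rw [ha, hb]
    field_simp
    ring
  have hL : ∀ l : L, ∃ r : R, r ≠ 0 ∧ ∃ o : O,
      algebraMap R K r * algebraMap L K l = algebraMap O K o := by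
    intro l
    obtain ⟨c, e, he, rfl⟩ := IsFractionRing.div_surjective (A := O) l
    have he0 : e ≠ 0 := nonZeroDivisors.ne_zero he
    have h1 := Ideal.comap_ne_bot_of_integral_mem (R := R) (I := Ideal.span {e}) he0
      (Ideal.mem_span_singleton_self e) (Algebra.IsIntegral.isIntegral e)
    obtain ⟨r, hr, hr0⟩ := Submodule.exists_mem_ne_zero_of_ne_bot h1
    rw [Ideal.mem_comap, Ideal.mem_span_singleton'] at hr
    obtain ⟨e', he'⟩ := hr
    refine ⟨r, hr0, e' * c, ?_⟩
    have he1 : algebraMap O K e ≠ 0 := (map_ne_zero_iff _ hOK).2 he0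
    rw [IsScalarTower.algebraMap_apply R O K, ← he', map_div₀,
      ← IsScalarTower.algebraMap_apply O L K, ← IsScalarTower.algebraMap_apply O L K, map_mul,
      map_mul]
    field_simp
  -- the modules
  obtain ⟨i₀⟩ := ‹Nonempty ι›
  have huniv : (Finset.univ : Finset ι).Nonempty := ⟨i₀, Finset.mem_univ _⟩
  have hne : Nonempty ι := ⟨i₀⟩
  set MM : ι → Submodule R K := fun i => (HM C x y i).restrictScalars R with hMM
  set NN : ι → Submodule R K := fun i => (SC s C x y t i).restrictScalars R with hNN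
  have hσh : ∀ i, i ∉ t → σ (aeval (x i) (C i).h) = aeval (x i) (C i).h := by
    intro i hi
    rw [semi_aeval hσO, hσx i hi, hsh i hi]
  have hσM : ∀ i, ∀ w ∈ MM i, τ w ∈ MM i := fun i => HM_stable' hC σ hσO hσx hσy hσt i
  have hσN : ∀ i, ∀ w ∈ NN i, τ w ∈ NN i := fun i => SC_stable σ hσO hσx hσh hσy hσt i
  have hNM : ∀ i, NN i ≤ MM i := fun i => SC_le hC i
  have hMO : ∀ w ∈ ∏ i, HM C x y i, w ∈ ∏ i, MM i := prod_restrict (R := R) _ _ huniv
  have hMfg : (∏ i, MM i).FG := by
    refine prod_fg _ (fun i => Submodule.FG.restrictScalars ?_) _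
    refine Submodule.fg_span (Set.Finite.union ?_ (Set.finite_singleton _))
    refine ((Finset.range ((C i).r + 1)).finite_toSet.image fun k => x i ^ k).subset ?_
    rintro z ⟨k, hk, rfl⟩
    exact ⟨k, by simp; omega, rfl⟩
  have hPIle : PI MM NN ≤ ∏ i, MM i := PI_le hNM
  have h1M : (1 : K) ∈ ∏ i, HM C x y i := by
    have h2 := prod_mem_prod (HM C x y) (fun _ => (1 : K)) Finset.univ fun i _ => HM_one
    rwa [Finset.prod_const_one] at h2
  -- the conditions at the points
  have hcond := prod_cond MM NN τ hσσ (by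
      obtain ⟨a, ha⟩ := hs1
      refine ⟨algebraMap O K a, hMO _ ?_, fun h => ha (hOK ?_)⟩
      · have h3 := Submodule.smul_mem _ a h1M
        rwa [Algebra.smul_def, mul_one] at h3
      · rw [← hσO]
        exact h) (fun i => HM_one) hNM (by
      intro i
      by_cases hrr : ∃ a ∈ rr s, a ≠ 0
      · obtain ⟨a, ha, ha0⟩ := hrr
        refine ⟨algebraMap O K a * x i ^ 0, SC_pow ha (Nat.zero_le _), ?_⟩
        rw [pow_zero, mul_one]
        exact (map_ne_zero_iff _ hOK).2 ha0
      · exfalso
        push Not at hrr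
        have h1 : rr s ≤ ⊥ := fun a ha => Ideal.mem_bot.2 (hrr a ha)
        have h2 := ram_of_le (s := s) h2O (Ideal.isPrime_bot (α := O)) h1
        exact h2O (Ideal.mem_bot.1 h2.2.1)) (by
      intro W hRW
      have hOW : ∀ o, algebraMap O K o ∈ W := by
        intro o
        have h1 : IsIntegral R o := Algebra.IsIntegral.isIntegral o
        have h2 : IsIntegral R (algebraMap O K o) := h1.map (IsScalarTower.toAlgHom R O K)
        let _ : Algebra R W := ((algebraMap R K).codRestrict W.toSubring hRW).toAlgebra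
        have hst : IsScalarTower R W K := IsScalarTower.of_algebraMap_eq fun r => rfl
        have h3 : IsIntegral W (algebraMap O K o) := h2.tower_top
        obtain ⟨w, hw⟩ := IsIntegrallyClosed.isIntegral_iff.1 h3
        rw [← hw]
        exact w.2
      refine ⟨fun i => lh W (C i).r (x i), ?_, fun Q hQ => ?_⟩
      · intro i
        refine ⟨?_, lh_ne _, HM_div (T := W.toSubring) hOW (lx_mem _) (ly_mem (hC i) (hE i) hOW)⟩
        change lh W (C i).r (x i) ∈ HM C x y i
        unfold lh
        split_ifs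
        · exact HM_one
        · exact HM_pow le_rfl
      · have hDS : Subring.closure (DS MM fun i => lh W (C i).r (x i)) =
            Subring.closure (HG W C x y) := by
          rw [← closure_HG hC]
          apply le_antisymm
          · rw [Subring.closure_le]
            rintro w (⟨o, rfl⟩ | ⟨i, z, hz, rfl⟩)
            · rw [IsScalarTower.algebraMap_apply R O K]
              exact Subring.subset_closure (Or.inl ⟨_, rfl⟩)
            · exact Subring.subset_closure (Or.inr ⟨i, z, hz, rfl⟩)
          · rw [Subring.closure_le]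
            rintro w (⟨o, rfl⟩ | ⟨i, z, hz, rfl⟩)
            · refine Subring.subset_closure (Or.inr ⟨i₀, algebraMap O K o *
                lh W (C i₀).r (x i₀), ?_, ?_⟩)
              · refine HM_smul ?_ o
                unfold lh
                split_ifs
                · exact HM_one
                · exact HM_pow le_rfl
              · rw [mul_div_assoc, div_self (lh_ne _), mul_one]
            · exact Subring.subset_closure (Or.inr ⟨i, z, hz, rfl⟩)
        rw [hDS] at hQ
        obtain ⟨h1, h2⟩ := tw_pt hOK h2O hss hsR hx hC hE hR d hd hco hord hsmo σ.toIntAlgEquiv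
          hσO hσx hσh hσy hσt hσσ hne hOW hQ
        refine ⟨h1, fun 𝔞 h𝔞 => ?_⟩
        obtain ⟨h3, h4⟩ := h2 𝔞 h𝔞
        exact ⟨h3, fun h5 h6 => h4 h5 h6⟩)
  -- the generic fibre
  have hP1 : Submodule.span E (Set.range z ^ 1) = Submodule.span E (Set.range z) := by
    rw [pow_one]
  set P := Submodule.span E (Set.range z) with hP
  have hprodL : ∀ w ∈ ∏ i, MM i, w ∈ Submodule.span L (Set.range fun j => algebraMap F K (z j)) := by
    intro w hw
    rw [hz]
    exact prod_le_L (HM C x y) (fun i => forms L (C i).r (x i) (y i))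
      (fun i => HM_le_forms) Finset.univ w (prod_restrict' (R := R) _ _ w hw)
  have hspanL : ∀ w ∈ Submodule.span L (Set.range fun j => algebraMap F K (z j)),
      ∃ a ∈ P, ∃ b ∈ P, w = algebraMap F K a + δK * algebraMap F K b := by
    intro w hw
    induction hw using Submodule.span_induction with
    | mem w hw =>
      obtain ⟨j, rfl⟩ := hw
      exact ⟨z j, Submodule.subset_span ⟨j, rfl⟩, 0, Submodule.zero_mem _, by
        rw [map_zero, mul_zero, add_zero]⟩
    | zero =>
      exact ⟨0, Submodule.zero_mem _, 0, Submodule.zero_mem _, by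
        rw [map_zero, mul_zero, add_zero]⟩
    | add u v _ _ hu hv =>
      obtain ⟨a, ha, b, hb, rfl⟩ := hu
      obtain ⟨a', ha', b', hb', rfl⟩ := hv
      refine ⟨a + a', Submodule.add_mem _ ha ha', b + b', Submodule.add_mem _ hb hb', ?_⟩
      simp only [map_add]
      ring
    | smul l u _ hu =>
      obtain ⟨a, ha, b, hb, rfl⟩ := hu
      obtain ⟨a₀, b₀, rfl⟩ := hLE l
      refine ⟨a₀ • a + (D * b₀) • b, Submodule.add_mem _ (Submodule.smul_mem _ _ ha)
        (Submodule.smul_mem _ _ hb), b₀ • a + a₀ • b, Submodule.add_mem _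
        (Submodule.smul_mem _ _ ha) (Submodule.smul_mem _ _ hb), ?_⟩
      have e1 : ∀ e : E, algebraMap L K (algebraMap E L e) = algebraMap F K (algebraMap E F e) := by
        intro e
        rw [← IsScalarTower.algebraMap_apply E L K, ← IsScalarTower.algebraMap_apply E F K]
      simp only [Algebra.smul_def, map_add, map_mul, e1]
      rw [← hδK]
      linear_combination (algebraMap F K (algebraMap E F b₀) * algebraMap F K b) * hDK
  have hgeL : ∀ w ∈ Submodule.span L (Set.range fun j => algebraMap F K (z j)),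
      ∃ r : R, r ≠ 0 ∧ algebraMap R K r * w ∈ ∏ i, MM i := by
    intro w hw
    rw [hz] at hw
    obtain ⟨r, hr, h1⟩ := prod_ge_L (R := R) hRK hL (HM C x y)
      (fun i => forms L (C i).r (x i) (y i)) (fun i => forms_ge hL) Finset.univ w hw
    exact ⟨r, hr, hMO _ h1⟩
  have hPL : ∀ n ∈ P, algebraMap F K n ∈
      Submodule.span L (Set.range fun j => algebraMap F K (z j)) := by
    intro n hn
    induction hn using Submodule.span_induction with
    | mem n hn =>
      obtain ⟨j, rfl⟩ := hn
      exact Submodule.subset_span ⟨j, rfl⟩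
    | zero => rw [map_zero]; exact Submodule.zero_mem _
    | add u v _ _ hu hv => rw [map_add]; exact Submodule.add_mem _ hu hv
    | smul e u _ hu =>
      have h1 : algebraMap F K (e • u) = (algebraMap E L e) • algebraMap F K u := by
        rw [Algebra.smul_def, Algebra.smul_def, map_mul, ← IsScalarTower.algebraMap_apply E F K,
          ← IsScalarTower.algebraMap_apply E L K]
      rw [h1]
      exact Submodule.smul_mem _ _ hu
  have hTM : Tw (O := R) (Submodule.span E (Set.range z ^ 1)) δK (∏ i, MM i) := by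
    rw [hP1]
    refine ⟨fun w hw => hspanL w (hprodL w hw), fun n hn => ?_⟩
    have h1 := hPL n hn
    obtain ⟨r, hr, h3⟩ := hgeL _ h1
    have h2 : δK * algebraMap F K n ∈ Submodule.span L (Set.range fun j => algebraMap F K (z j)) := by
      rw [hδK, ← Algebra.smul_def]
      exact Submodule.smul_mem _ _ h1
    obtain ⟨q, hq, h4⟩ := hgeL _ h2
    refine ⟨r * q, mul_ne_zero hr hq, ?_, ?_⟩
    · rw [mul_comm, mul_smul, Algebra.smul_def r]
      exact Submodule.smul_mem _ _ h3
    · rw [mul_smul, Algebra.smul_def q]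
      exact Submodule.smul_mem _ _ h4
  refine tw_good2 (O := R) z (m := 1) le_rfl hDK hδF hKF h2R τ hσF' hδ hMfg
    (fg_of_le hPIle hMfg) (prod_stable MM τ hσM _) ?_ hPIle ⟨1, hMO 1 h1M, one_ne_zero⟩ h2R ?_ hTM
    hcond
  · refine PI_ind ?_ ?_ ?_
    · rw [map_zero]; exact Submodule.zero_mem _
    · intro x y hx hy
      rw [map_add]; exact Submodule.add_mem _ hx hy
    · intro i x hx y hy
      rw [map_mul]
      exact (le_iSup (fun i => NN i * ∏ j ∈ Finset.univ.erase i, MM j) i)
        (Submodule.mul_mem_mul (hσN i x hx) (prod_stable MM τ hσM _ y hy))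
  · intro w hw
    rw [← Finset.mul_prod_erase Finset.univ MM (Finset.mem_univ i₀)] at hw
    refine Submodule.mul_induction_on hw ?_ ?_
    · intro u hu v hv
      have h1 : (2 : R) • (u * v) = (algebraMap O K 2 * u) * v := by
        rw [Algebra.smul_def, map_ofNat, map_ofNat]
        ring
      rw [h1]
      refine (le_iSup (fun i => NN i * ∏ j ∈ Finset.univ.erase i, MM j) i₀)
        (Submodule.mul_mem_mul ?_ hv)
      refine rr_mul_HM ?_ u hu
      rw [rr, Submodule.mem_sInf]
      intro 𝔓 h𝔓
      exact h𝔓.2.1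
    · intro u v hu hv
      rw [smul_add]
      exact Submodule.add_mem _ hu hv

end Pool.Agent.X269.HQ
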