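import Pool.Agent.X269.HQ.Ded

/-!
# Products of twists of double covers: regularity
-/

set_option autoImplicit false

namespace Pool.Agent.X269.HQ

open IsLocalRing Pool.Agent.Y223.INV Pool.Agent.W418.LU2 Pool.Agent.TH188.QS
  Pool.Agent.H918R2.Quad Pool.Agent.TH188.ARC Pool.Agent.X269.KP Pool.Agent.X269.HP Polynomial

variable {O K : Type} [CommRing O] [Field K] [Algebra O K] {W : ValuationSubring K}

/-- The reduction modulo the primes containing `2` is ordinary. -/
def IsOrdTwo (C : Hyp O) : Prop :=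
  ∃ u v : O[X], C.f = C.h * u + 2 * v ∧ Ideal.span {2, C.h, derivative C.h} = ⊤ ∧
    Ideal.span {2, C.h, u} = ⊤

/-- Ordinary points. -/
lemma ord_spec2 {C : Hyp O} {x y : K} (hOW : ∀ o, algebraMap O K o ∈ W) (h : HP.Pt C x y) (hx : x ∈ W)
    (h2 : Nn W (2 : K)) {u v : O[X]} (hf : C.f = C.h * u + 2 * v)
    (h3 : Ideal.span {2, C.h, derivative C.h} = ⊤) (h4 : Ideal.span {2, C.h, u} = ⊤)
    (hh : Nn W (aeval x C.h)) : Nn W y ∧ ¬ Nn W (aeval x u) ∧
      ¬ Nn W (aeval x (derivative C.h) * y - aeval x (derivative C.f)) := by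
  have hy := h.int hOW hx
  have hm : ∀ p : O[X], aeval x p ∈ W := aeval_mem (T := W.toSubring) hOW hx
  have t2 : (2 : K) ∈ W := num_mem hOW 2
  have h2' : Nn W (aeval x (2 : O[X])) := by rw [map_ofNat]; exact h2
  have i3 := span_three h3 hOW hx h2' hh
  have i4 := span_three h4 hOW hx h2' hh
  have hfx : aeval x C.f = aeval x C.h * aeval x u + 2 * aeval x v := by
    rw [hf, map_add, map_mul, map_mul, map_ofNat]
  have hfx' : aeval x (derivative C.f) = aeval x (derivative C.h) * aeval x u +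
      aeval x C.h * aeval x (derivative u) + 2 * aeval x (derivative v) := by
    rw [hf, derivative_add, derivative_mul, derivative_mul]
    have e5 : derivative (2 : O[X]) = 0 := derivative_ofNat 2
    rw [e5, map_add, map_add, map_add, map_mul, map_mul, map_mul, map_mul, map_ofNat, map_zero]
    ring
  have hyn : Nn W y := by
    apply Nn.of_sq hy
    unfold HP.Pt at h
    have e1 : y ^ 2 = (aeval x u - y) * aeval x C.h + aeval x v * 2 := by
      rw [hfx] at h
      linear_combination h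
    rw [e1]
    exact (hh.mul (sub_mem (hm _) hy)).add (h2.mul (hm _))
  refine ⟨hyn, i4, fun h5 => ?_⟩
  have h6 : Nn W (aeval x (derivative C.h) * aeval x u) := by
    have e1 : aeval x (derivative C.h) * aeval x u = aeval x (derivative C.h) * y -
        (aeval x (derivative C.h) * y - aeval x (derivative C.f)) -
        aeval x (derivative u) * aeval x C.h - aeval x (derivative v) * 2 := by
      rw [hfx']
      ring
    rw [e1]
    exact (((hyn.mul (hm _)).sub h5).sub (hh.mul (hm _))).sub (h2.mul (hm _))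
  exact i4 (h6.of_mul (hm _) i3)

lemma sm_of_ord2 {C : Hyp O} {x y : K} (hOW : ∀ o, algebraMap O K o ∈ W) (h : HP.Pt C x y) (hx : x ∈ W)
    (h2 : Nn W (2 : K)) (hC : IsOrdTwo C) : SmP C x y W := by
  obtain ⟨u, v, hf, h3, h4⟩ := hC
  by_cases h5 : Nn W (2 * y + aeval x C.h)
  · exact Or.inr (ord_spec2 hOW h hx h2 hf h3 h4 (nn_h hOW h hx h2 h5)).2.2
  · exact Or.inl h5

/-- The centre is regular. -/
theorem quot_gen {ι : Type} {C : ι → Hyp O} {x y : ι → K} {E : Type} [Field E] [Algebra E K]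
    [DecidableEq ι] [Fintype ι] [IsDedekindDomain O] [Algebra O E]
    [IsScalarTower O E K] (hO : Function.Injective (algebraMap O K))
    (hx : AlgebraicIndependent E x) (hC : ∀ i, (C i).IsDeg) (hE : ∀ i, HP.Pt (C i) (x i) (y i))
    (hOW : ∀ o, algebraMap O K o ∈ W) {c : O} (hc : c ∈ pr O W hOW) (hc2 : c ∉ pr O W hOW ^ 2)
    (hsm2 : ∀ i, SmP (lc W (C i) (x i)) (lx W (x i)) (ly W (C i).r (x i) (y i)) W)
    (P : Set ι)
    (hP : ∀ i ∈ P, Nn W (ly W (C i).r (x i) (y i)) ∧
      ¬ Nn W (aeval (lx W (x i)) (derivative (lc W (C i) (x i)).h) *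
      ly W (C i).r (x i) (y i) - aeval (lx W (x i)) (derivative (lc W (C i) (x i)).f))) :
    ∃ (κ : Type) (_ : Fintype κ) (p : κ → K),
      RegP W.toSubring (lo W.toSubring (Subring.closure (HG W C x y))) p ∧
        Set.range p = {algebraMap O K c} ∪ {t | ∃ i ∈ P, t = ly W (C i).r (x i) (y i)} := by
  classical
  have hOE : ∀ s o, algebraMap O K o ∈ LF E x s := by
    intro s o
    rw [IsScalarTower.algebraMap_apply O E K]
    exact algebraMap_mem_LF _
  have hcr : Subring.closure (Set.range (algebraMap O K)) = (algebraMap O K).range := by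
    rw [← RingHom.coe_range]
    exact Subring.closure_eq _
  have hrW : Set.range (algebraMap O K) ⊆ (W : Set K) := by
    rintro _ ⟨o, rfl⟩
    exact hOW o
  have hR0 := (base_reg hO W hOW).2 c hc hc2
  rw [← hcr] at hR0
  obtain ⟨κ, hκ, p, h1, h4⟩ := hyp_chain hC hE hOW hOE hx ∅ (Set.range (algebraMap O K)) hrW
      le_rfl (by
      rintro s - _ ⟨o, rfl⟩
      exact hOE _ o) hR0 P (fun i hi _ => (hP i hi).2)
      (fun i _ => hsm2 i) Finset.univ (by simp)
  have h3 : (Set.range (algebraMap O K) ∪ GJ W C x y (Finset.univ : Finset ι)) = HG W C x y := by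
    ext t
    simp [HG, GJ]
  rw [h3] at h1
  refine ⟨κ, hκ, p, h1, ?_⟩
  rw [h4]
  ext t
  simp

end Pool.Agent.X269.HQ
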