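import Pool.Agent.X269.HQ.TwPt

/-!
# Regular proper models of products of twists of double covers
-/

set_option autoImplicit false

namespace Pool.Agent.X269.HQ

open IsLocalRing Pool.Agent.Y223.INV Pool.Agent.H918R2.Quad AlgebraicGeometry CategoryTheory
  Pool.Agent.X269.KP Pool.Agent.X269.HP Polynomial

section stable

variable {O K : Type} [CommRing O] [Field K] [Algebra O K] {ι : Type}
  {C : ι → Hyp O} {x y : ι → K} {t : Set ι} {s : O ≃+* O}

lemma semi_aeval {σ : K ≃+* K} (hσO : ∀ o, σ (algebraMap O K o) = algebraMap O K (s o)) (a : K)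
    (p : O[X]) : σ (aeval a p) = aeval (σ a) (p.map (s : O →+* O)) := by
  have h1 := Polynomial.hom_eval₂ p (algebraMap O K) (σ : K →+* K) a
  have h2 : (σ : K →+* K).comp (algebraMap O K) = (algebraMap O K).comp (s : O →+* O) := by
    ext o
    exact hσO o
  rw [h2, ← Polynomial.eval₂_map] at h1
  exact h1

lemma HM_stable' (hC : ∀ i, (C i).IsDeg) (σ : K ≃+* K)
    (hσO : ∀ o, σ (algebraMap O K o) = algebraMap O K (s o)) (hσx : ∀ i, i ∉ t → σ (x i) = x i)
    (hσy : ∀ i, i ∉ t → σ (y i) = -y i - aeval (x i) (C i).h)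
    (hσt : ∀ i ∈ t, (σ (x i) = x i ∨ σ (x i) = -x i) ∧ (σ (y i) = y i ∨ σ (y i) = -y i))
    (i : ι) : ∀ z ∈ HM C x y i, σ z ∈ HM C x y i := by
  have h0 : σ (0 : K) ∈ HM C x y i := by rw [map_zero]; exact Submodule.zero_mem _
  have hadd : ∀ a b : K, σ a ∈ HM C x y i → σ b ∈ HM C x y i → σ (a + b) ∈ HM C x y i := by
    intro a b ha hb
    rw [map_add]; exact Submodule.add_mem _ ha hb
  have hsm : ∀ (r : O) (a : K), σ a ∈ HM C x y i → σ (algebraMap O K r * a) ∈ HM C x y i := by
    intro r a ha
    rw [map_mul, hσO]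
    exact HM_smul ha _
  refine HM_ind h0 hadd hsm ?_ ?_
  · intro k hk
    rw [map_pow]
    by_cases hi : i ∈ t
    · exact mem_pm (pow_pm (hσt i hi).1 k) (HM_pow hk)
    · rw [hσx i hi]
      exact HM_pow hk
  · by_cases hi : i ∈ t
    · exact mem_pm (hσt i hi).2 HM_y
    · rw [hσy i hi]
      exact Submodule.sub_mem _ (Submodule.neg_mem _ HM_y) (HM_aeval (hC i).2.1)

lemma SC_stable (σ : K ≃+* K) (hσO : ∀ o, σ (algebraMap O K o) = algebraMap O K (s o))
    (hσx : ∀ i, i ∉ t → σ (x i) = x i)
    (hσh : ∀ i, i ∉ t → σ (aeval (x i) (C i).h) = aeval (x i) (C i).h)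
    (hσy : ∀ i, i ∉ t → σ (y i) = -y i - aeval (x i) (C i).h)
    (hσt : ∀ i ∈ t, (σ (x i) = x i ∨ σ (x i) = -x i) ∧ (σ (y i) = y i ∨ σ (y i) = -y i))
    (i : ι) : ∀ z ∈ SC s C x y t i, σ z ∈ SC s C x y t i := by
  classical
  have h0 : σ (0 : K) ∈ SC s C x y t i := by rw [map_zero]; exact Submodule.zero_mem _
  have hadd : ∀ a b : K, σ a ∈ SC s C x y t i → σ b ∈ SC s C x y t i →
      σ (a + b) ∈ SC s C x y t i := by
    intro a b ha hb
    rw [map_add]; exact Submodule.add_mem _ ha hb
  have hsm : ∀ (r : O) (a : K), σ a ∈ SC s C x y t i →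
      σ (algebraMap O K r * a) ∈ SC s C x y t i := by
    intro r a ha
    rw [map_mul, hσO, ← Algebra.smul_def]
    exact Submodule.smul_mem _ _ ha
  by_cases hi : i ∈ t
  · have hHC : SC s C x y t i = ST s C x y i := by rw [SC, if_pos hi]
    rw [hHC] at h0 hadd hsm ⊢
    refine ST_ind h0 hadd hsm ?_ ?_
    · intro a ha k hk
      rw [map_mul, hσO, map_pow]
      have h1 : algebraMap O K (s a) * σ (x i) ^ k = algebraMap O K (s a) * x i ^ k ∨
          algebraMap O K (s a) * σ (x i) ^ k = -(algebraMap O K (s a) * x i ^ k) := by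
        rcases pow_pm (hσt i hi).1 k with h1 | h1
        · rw [h1]; exact Or.inl rfl
        · rw [h1]; exact Or.inr (by ring)
      exact mem_pm h1 (Submodule.subset_span (Or.inl ⟨s a, rr_stable ha, k, hk, rfl⟩))
    · intro a ha
      rw [map_mul, hσO]
      have h1 : algebraMap O K (s a) * σ (y i) = algebraMap O K (s a) * y i ∨
          algebraMap O K (s a) * σ (y i) = -(algebraMap O K (s a) * y i) := by
        rcases (hσt i hi).2 with h1 | h1
        · rw [h1]; exact Or.inl rfl
        · rw [h1]; exact Or.inr (by ring)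
      exact mem_pm h1 (Submodule.subset_span (Or.inr ⟨s a, rr_stable ha, rfl⟩))
  · have hHC : SC s C x y t i = SN s C x y i := by rw [SC, if_neg hi]
    rw [hHC] at h0 hadd hsm ⊢
    refine SN_ind h0 hadd hsm ?_ ?_ ?_
    · intro a ha k hk
      rw [map_mul, hσO, map_pow, hσx i hi]
      exact Submodule.subset_span (Or.inl ⟨s a, rr_stable ha, k, hk, rfl⟩)
    · rw [hσh i hi]
      exact Submodule.subset_span (by simp)
    · rw [hσy i hi]
      exact Submodule.sub_mem _ (Submodule.neg_mem _ (Submodule.subset_span (by simp)))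
        (Submodule.subset_span (by simp))

end stable

theorem tw_main (O E : Type) [CommRing O] [IsDedekindDomain O] [Module.Finite ℤ O] [Field E]
    [CharZero E] [Algebra O E] [IsFractionRing O E] (s : O ≃+* O) (hss : ∀ a, s (s a) = a)
    (hs1 : ∃ a, s a ≠ a) (hsR : RamOK s)
    {ι : Type} [Fintype ι] [DecidableEq ι] [Nonempty ι] (C : ι → Hyp O) (hC : ∀ i, (C i).IsDeg)
    (hR : ∀ i, (C i).IsReg ∧ (C i).rev.IsReg) (d : ι → O)
    (hd : ∀ i, (C i).IsDisc (d i) ∧ (C i).rev.IsDisc (d i))
    (hco : ∀ i j, i ≠ j → ∀ 𝔭 : Ideal O, 𝔭.IsPrime → d i ∈ 𝔭 → d j ∈ 𝔭 → (2 : O) ∈ 𝔭)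
    (t : Set ι) (hord : ∀ i, i ∉ t → IsOrdTwo (C i) ∧ IsOrdTwo (C i).rev)
    (hsh : ∀ i, i ∉ t → (C i).h.map (s : O →+* O) = (C i).h)
    (hsmo : ∀ i ∈ t, (C i).IsSmoothTwo ∧ (C i).rev.IsSmoothTwo)
    (K : Type) [Field K] [Algebra E K] (x y : ι → K) (hx : AlgebraicIndependent E x)
    (hE : ∀ i, y i ^ 2 + aeval (x i) ((C i).h.map (algebraMap O E)) * y i =
      aeval (x i) ((C i).f.map (algebraMap O E)))
    (hK : IntermediateField.adjoin E (Set.range x ∪ Set.range y) = ⊤) (σ : K ≃+* K)
    (hσO : ∀ o, σ (algebraMap E K (algebraMap O E o)) = algebraMap E K (algebraMap O E (s o)))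
    (hσx : ∀ i, i ∉ t → σ (x i) = x i)
    (hσy : ∀ i, i ∉ t → σ (y i) = -y i - aeval (x i) ((C i).h.map (algebraMap O E)))
    (hσt : ∀ i ∈ t, (σ (x i) = x i ∨ σ (x i) = -x i) ∧ (σ (y i) = y i ∨ σ (y i) = -y i))
    {F : Type} [Field F]
    [Algebra F K] (hF : ∀ x, σ x = x ↔ ∃ f : F, algebraMap F K f = x) :
    ∃ (X' : Scheme.{0}) (_ : IsIntegral X') (g : X' ⟶ Spec (CommRingCat.of ℤ)),
      IsProper g ∧
      (∀ x : X',
        (((Module.finrank (IsLocalRing.ResidueField (X'.presheaf.stalk x))
            (IsLocalRing.CotangentSpace (X'.presheaf.stalk x)) : ℕ∞)) : WithBot ℕ∞)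
          = ringKrullDim (X'.presheaf.stalk x)) ∧
      Nonempty (X'.functionField ≃+* F) := by
  classical
  let _ : Algebra O K := ((algebraMap E K).comp (algebraMap O E)).toAlgebra
  have hst : IsScalarTower O E K := IsScalarTower.of_algebraMap_eq fun o => rfl
  have hO : Function.Injective (algebraMap O K) :=
    (algebraMap E K).injective.comp (IsFractionRing.injective O E)
  have hKC : CharZero K := charZero_of_injective_algebraMap (algebraMap E K).injective
  have h20 : (2 : K) ≠ 0 := by norm_num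
  have h20' : (2 : O) ≠ 0 := by
    intro h
    apply h20
    rw [← map_ofNat (algebraMap O K) 2, h, map_zero]
  have hFC : CharZero F := charZero_of_injective_algebraMap (R := ℤ) (A := F) (by
    intro a b hab
    have h1 := congrArg (algebraMap F K) hab
    rw [eq_intCast, eq_intCast, map_intCast, map_intCast] at h1
    exact_mod_cast h1)
  have hinj : Function.Injective (algebraMap ℤ F) := by
    intro a b hab
    rw [eq_intCast, eq_intCast] at hab
    exact_mod_cast hab
  have hmap : ∀ i (p : O[X]), aeval (x i) (p.map (algebraMap O E)) = aeval (x i) p := fun i p =>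
    aeval_map_algebraMap E (x i) p
  have hE' : ∀ i, HP.Pt (C i) (x i) (y i) := by
    intro i
    have h := hE i
    rw [hmap, hmap] at h
    exact h
  -- the involution
  have hσO' : ∀ o, σ (algebraMap O K o) = algebraMap O K (s o) := hσO
  have hσy' : ∀ i, i ∉ t → σ (y i) = -y i - aeval (x i) (C i).h := by
    intro i hi
    have h := hσy i hi
    rw [hmap] at h
    exact h
  have hσh : ∀ i, i ∉ t → σ (aeval (x i) (C i).h) = aeval (x i) (C i).h := by
    intro i hi
    rw [semi_aeval hσO', hσx i hi, hsh i hi]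
  have hpm : ∀ a : K, (σ a = a ∨ σ a = -a) → σ (σ a) = a := by
    rintro a (h | h)
    · rw [h, h]
    · rw [h, map_neg, h, neg_neg]
  have hEσ : ∀ e : E, σ (σ (algebraMap E K e)) = algebraMap E K e := by
    intro e
    obtain ⟨c, d, hd, rfl⟩ := IsFractionRing.div_surjective (A := O) e
    rw [map_div₀, map_div₀, map_div₀, hσO, hσO, hσO, hσO, hss, hss]
  have hσσ : ∀ x, σ (σ x) = x := by
    intro z
    have hz : z ∈ IntermediateField.adjoin E (Set.range x ∪ Set.range y) := by rw [hK]; trivial
    induction hz using IntermediateField.adjoin_induction with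
    | mem z hz =>
      rcases hz with ⟨i, rfl⟩ | ⟨i, rfl⟩
      · by_cases hi : i ∈ t
        · exact hpm _ (hσt i hi).1
        · rw [hσx i hi, hσx i hi]
      · by_cases hi : i ∈ t
        · exact hpm _ (hσt i hi).2
        · rw [hσy' i hi, map_sub, map_neg, hσy' i hi, hσh i hi]
          ring
    | algebraMap x => exact hEσ x
    | add x z _ _ hx hz => rw [map_add, map_add, hx, hz]
    | inv x _ hx => rw [map_inv₀, map_inv₀, hx]
    | mul x z _ _ hx hz => rw [map_mul, map_mul, hx, hz]
  let τ : K ≃ₐ[ℤ] K := σ.toIntAlgEquiv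
  have hσ1 : ∃ x, τ x ≠ x := by
    obtain ⟨a, ha⟩ := hs1
    refine ⟨algebraMap O K a, fun h => ha (hO ?_)⟩
    rw [← hσO']
    exact h
  have hF' : ∀ x, τ x = x ↔ ∃ f : F, algebraMap F K f = x := hF
  have hDS : ∀ W : ValuationSubring K,
      Subring.closure (DS (O := ℤ) (fun i => (HM C x y i).restrictScalars ℤ)
        fun i => lh W (C i).r (x i)) = Subring.closure (HG W C x y) := by
    intro W
    rw [← closure_HG hC]
    apply le_antisymm
    · rw [Subring.closure_le]
      rintro t (⟨o, rfl⟩ | ⟨i, z, hz, rfl⟩)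
      · rw [eq_intCast]
        exact intCast_mem _ o
      · exact Subring.subset_closure (Or.inr ⟨i, z, hz, rfl⟩)
    · rw [Subring.closure_le]
      rintro t (⟨o, rfl⟩ | ⟨i, z, hz, rfl⟩)
      · obtain ⟨i₀⟩ := ‹Nonempty ι›
        refine Subring.subset_closure (Or.inr ⟨i₀, algebraMap O K o * lh W (C i₀).r (x i₀), ?_, ?_⟩)
        · refine HM_smul ?_ o
          unfold lh
          split_ifs
          · exact HM_one
          · exact HM_pow le_rfl
        · rw [mul_div_assoc, div_self (lh_ne _), mul_one]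
      · exact Subring.subset_closure (Or.inr ⟨i, z, hz, rfl⟩)
  have hM : HasModule ℤ F := by
    refine prod_module2 (O := ℤ) (fun a b hab => ?_) (fun i => (HM C x y i).restrictScalars ℤ)
      (fun i => (SC s C x y t i).restrictScalars ℤ) τ hσσ hσ1 hF' ?_ (fun i => HM_one)
      (HM_stable' hC σ hσO' hσx hσy' hσt) (fun i => SC_le hC i)
      (SC_stable σ hσO' hσx hσh hσy' hσt) ?_ ?_ ?_
    · rw [eq_intCast, eq_intCast] at hab
      exact_mod_cast hab
    · intro i
      refine Submodule.FG.restrictScalars ?_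
      refine Submodule.fg_span (Set.Finite.union ?_ (Set.finite_singleton _))
      refine ((Finset.range ((C i).r + 1)).finite_toSet.image fun k => x i ^ k).subset ?_
      rintro z ⟨k, hk, rfl⟩
      exact ⟨k, by simp; omega, rfl⟩
    · intro i
      by_cases hrr : ∃ a ∈ rr s, a ≠ 0
      · obtain ⟨a, ha, ha0⟩ := hrr
        refine ⟨algebraMap O K a * x i ^ 0, SC_pow ha (Nat.zero_le _), ?_⟩
        rw [pow_zero, mul_one]
        exact (map_ne_zero_iff _ hO).2 ha0
      · exfalso
        push Not at hrr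
        have h1 : rr s ≤ ⊥ := fun a ha => Ideal.mem_bot.2 (hrr a ha)
        have h2 := ram_of_le (s := s) h20' (Ideal.isPrime_bot (α := O)) h1
        exact h20' (Ideal.mem_bot.1 h2.2.1)
    · -- generation
      rw [eq_top_iff]
      set L := Subfield.closure (Set.range (algebraMap ℤ K) ∪
        {z | ∃ i, z ∈ (HM C x y i).restrictScalars ℤ}) with hL
      have hOL : ∀ o : O, algebraMap O K o ∈ L := by
        intro o
        obtain ⟨i₀⟩ := ‹Nonempty ι›
        refine Subfield.subset_closure (Or.inr ⟨i₀, ?_⟩)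
        have h3 := HM_smul (C := C) (x := x) (y := y) (i := i₀) HM_one o
        rwa [mul_one] at h3
      have hEL : ∀ e : E, algebraMap E K e ∈ L := by
        intro e
        obtain ⟨c, d, hd, rfl⟩ := IsFractionRing.div_surjective (A := O) e
        rw [map_div₀]
        exact L.div_mem (hOL c) (hOL d)
      intro z _
      have hz : z ∈ IntermediateField.adjoin E (Set.range x ∪ Set.range y) := by rw [hK]; trivial
      induction hz using IntermediateField.adjoin_induction with
      | mem z hz =>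
        rcases hz with ⟨i, rfl⟩ | ⟨i, rfl⟩
        · refine Subfield.subset_closure (Or.inr ⟨i, ?_⟩)
          have h3 := HM_pow (C := C) (x := x) (y := y) (i := i) (k := 1) (hC i).1
          rwa [pow_one] at h3
        · exact Subfield.subset_closure (Or.inr ⟨i, HM_y⟩)
      | algebraMap x => exact hEL x
      | add x z _ _ hx hz => exact L.add_mem (hx trivial) (hz trivial)
      | inv x _ hx => exact L.inv_mem (hx trivial)
      | mul x z _ _ hx hz => exact L.mul_mem (hx trivial) (hz trivial)
    · intro W _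
      have hOW : ∀ o, algebraMap O K o ∈ W := by
        intro o
        have h1 : IsIntegral ℤ o := Algebra.IsIntegral.isIntegral o
        have h2 : IsIntegral ℤ (algebraMap O K o) := h1.map (algebraMap O K).toIntAlgHom
        have h3 : IsIntegral W (algebraMap O K o) := h2.tower_top
        obtain ⟨w, hw⟩ := IsIntegrallyClosed.isIntegral_iff.1 h3
        rw [← hw]
        exact w.2
      refine ⟨fun i => lh W (C i).r (x i), ?_, fun Q hQ => ?_⟩
      · intro i
        refine ⟨?_, lh_ne _, HM_div (T := W.toSubring) hOW (lx_mem _) (ly_mem (hC i) (hE' i) hOW)⟩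
        change lh W (C i).r (x i) ∈ HM C x y i
        unfold lh
        split_ifs
        · exact HM_one
        · exact HM_pow le_rfl
      · rw [hDS W] at hQ
        exact tw_pt hO h20' hss hsR hx hC hE' hR d hd hco hord hsmo τ
          hσO' hσx hσh hσy' hσt hσσ inferInstance hOW hQ
  exact model_of_hasModule hinj hM

end Pool.Agent.X269.HQ
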